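import Pool.Agent.Helper74.DI.StM

set_option autoImplicit false

namespace Pool.Agent.Helper66.DI

open Pool.Agent.Helper74 Pool.Agent.Helper74.DI

theorem hSTD : StSTD := by
  intro w x s e o j v t μ hv ht hμ
  refine ⟨fun h0 => ?_, fun h0 hlt => ?_⟩
  · subst h0
    refine Prod.ext ?_ ?_
    · simp [sth, dm, cf]
    · funext i
      cases i <;> simp [sth, dm, cf]
  · refine Prod.ext ?_ ?_
    · simp [sth, dm, cf, h0]
    · funext i
      cases i with
      | J => simp [sth, dm, cf, h0, mk]
      | R r c =>
        by_cases hr : r = x
        · subst hr
          have : ¬ (r = !r) := by cases r <;> simp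
          simp [sth, dm, cf, h0, mk, up, this]
        · have hr' : r = !x := by
            revert hr; cases r <;> cases x <;> simp
          subst hr'
          by_cases hc : c = o (!x)
          · subst hc
            simp [sth, dm, cf, h0, mk, up]
            omega
          · simp [sth, dm, cf, h0, mk, up, hc]
            omega
      | T c =>
        cases c
        · simp [sth, dm, cf, h0, mk]
          omega
        · simp [sth, dm, cf, h0, mk]

end Pool.Agent.Helper66.DI
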